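import Pool.Agent.H431.CV.Prox

/-!
# Vojta's inequality for ideals on hypersurfaces: the exceptional set grows with the degree

Let `K` be a number field (the problem is about `K = ℚ`), `N ≥ 1`, let `A_i` be forms of degree
`N - i` in `x_0, …, x_n` over `K`, and let `X ⊆ ℙ^{n+1}` be the hypersurface
`z^N + ∑_{i < N} A_i(x) z^i = 0`, an arbitrary hypersurface of degree `N` that does not contain the
point `x = 0` (`X = ℙⁿ` if `N = 1`). If `X` is smooth, then `K_X = (N - n - 2) H`, where `H` is the
hyperplane class. The ideal sheaf is `I = O(-D)` for the sum `D` of the `n + 2` hyperplane sections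
`x_0 = 0`, …, `x_n = 0` and `x_0 + ⋯ + x_n = 0` (any `n + 2` hyperplanes through the point `x = 0`
are of this form, in suitable coordinates, as soon as any `n + 1` of them meet only in this point).
All heights, local heights and discriminants are normalised relative to `K`. A point of `X` over a
number field `L` is given by its homogeneous coordinates `P = (x_0, …, x_n, z)` in `L`.
-/

set_option autoImplicit false

namespace Pool.Agent.Results.MP_8865d3_nt.HypersurfaceProximity

open IsDedekindDomain NumberField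

/-- The value of `z^N + ∑_{i < N} A_i(x) z^i` at the point `P = (x, z)`. -/
noncomputable def equation {K L : Type} [Field K] [Field L] [Algebra K L] {n : ℕ} (N : ℕ)
    (A : ℕ → MvPolynomial (Fin (n + 1)) K) (P : Fin (n + 2) → L) : L :=
  P (Fin.last (n + 1)) ^ N + ∑ i ∈ Finset.range N,
    MvPolynomial.aeval (fun j => P (Fin.castSucc j)) (A i) * P (Fin.last (n + 1)) ^ i

/-- The value of the derivative `N z^{N-1} + ∑_{i < N} i A_i(x) z^{i-1}` of the equation with
respect to `z` at the point `P = (x, z)`. -/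
noncomputable def derivative {K L : Type} [Field K] [Field L] [Algebra K L] {n : ℕ} (N : ℕ)
    (A : ℕ → MvPolynomial (Fin (n + 1)) K) (P : Fin (n + 2) → L) : L :=
  N * P (Fin.last (n + 1)) ^ (N - 1) + ∑ i ∈ Finset.range N,
    i * (MvPolynomial.aeval (fun j => P (Fin.castSucc j)) (A i) * P (Fin.last (n + 1)) ^ (i - 1))

/-- The height of the point `P` of projective space, relative to `K`. -/
noncomputable def height (K : Type) {L : Type} [Field K] [Field L] [NumberField L] [Algebra K L]
    {n : ℕ} (P : Fin (n + 2) → L) : ℝ :=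
  Height.logHeight P / Module.finrank K L

/-- The logarithmic discriminant `log |disc L| / [L : K] - log |disc K|` of `L = K(P)`. -/
noncomputable def logDisc (K L : Type) [Field K] [NumberField K] [Field L] [NumberField L]
    [Algebra K L] : ℝ :=
  Real.log |(NumberField.discr L : ℝ)| / Module.finrank K L -
    Real.log |(NumberField.discr K : ℝ)|

/-- The local height `λ_I(P, v)`: the sum of the local heights
`log (max_k |P_k|_v) - log |ℓ(P)|_v` for the `n + 2` linear forms `ℓ = x_0, …, x_n` and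
`x_0 + ⋯ + x_n`; the maximum is over all coordinates of `P`, including `z`. -/
noncomputable def localHeight {L : Type} [Field L] {n : ℕ} (v : AbsoluteValue L ℝ)
    (P : Fin (n + 2) → L) : ℝ :=
  ∑ j : Fin (n + 1), (Real.log (⨆ k, v (P k)) - Real.log (v (P (Fin.castSucc j)))) +
    (Real.log (⨆ k, v (P k)) - Real.log (v (∑ j : Fin (n + 1), P (Fin.castSucc j))))

open Classical in
/-- The proximity function: the sum of the local heights `λ_I(P, v)` over the infinite places `v`
and the places `v` above the primes in `S`, normalised relative to `K`. -/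
noncomputable def proximity {K : Type} [Field K] [NumberField K]
    (S : Finset (HeightOneSpectrum (𝓞 K))) {n : ℕ} {L : Type} [Field L] [NumberField L]
    [Algebra K L] (P : Fin (n + 2) → L) : ℝ :=
  (∑ v : InfinitePlace L, v.mult * localHeight v.val P +
    ∑ᶠ v : FinitePlace L,
      if ∃ p ∈ S, v.maximalIdeal.asIdeal.comap (algebraMap (𝓞 K) (𝓞 L)) = p.asIdeal
      then localHeight v.val P else 0) / Module.finrank K L

/-- A real number `μ(P)` attached to every vector `P` of coordinates over every number field, for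
example the sum over `v ∈ S` of the local heights of another effective divisor. -/
def PointFunction (K : Type) [Field K] (n : ℕ) : Type 1 :=
  ∀ (L : Type) [Field L] [NumberField L] [Algebra K L], (Fin (n + 2) → L) → ℝ

/-- The function is bounded below. -/
def PointFunction.BoundedBelow {K : Type} [Field K] {n : ℕ} (μ : PointFunction K n) : Prop :=
  ∃ B : ℝ, ∀ (L : Type) [Field L] [NumberField L] [Algebra K L] (P : Fin (n + 2) → L), B ≤ μ L P

/-- The hypersurface `G(x) = 0` contains an exceptional set for `(X, I)`, `μ`, `S`, `ε` and the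
points of degree at most `r` over `K`: there is `C` such that
`h_{K_X}(P) + ∑_{v ∈ S} λ_I(P, v) + μ(P) ≤ ε h(P) + d(P) + C`, where `h_{K_X} = (N - n - 2) h`,
for all points `P = (x, z)` of `X` outside `D` with `[K(P) : K] ≤ r` and `G(x) ≠ 0`. Here `K(P)` is
the field generated over `K` by the quotients of the coordinates of `P`. -/
def Exceptional {K : Type} [Field K] [NumberField K] (S : Finset (HeightOneSpectrum (𝓞 K)))
    {n : ℕ} (μ : PointFunction K n) (N : ℕ) (A : ℕ → MvPolynomial (Fin (n + 1)) K) (r : ℕ) (ε : ℝ)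
    (G : MvPolynomial (Fin (n + 1)) K) : Prop :=
  ∃ C : ℝ, ∀ (L : Type) [Field L] [NumberField L] [Algebra K L] (P : Fin (n + 2) → L),
    equation N A P = 0 →
    IntermediateField.adjoin K {x : L | ∃ i j, x = P i / P j} = ⊤ → Module.finrank K L ≤ r →
    (∀ j : Fin (n + 1), P (Fin.castSucc j) ≠ 0) → ∑ j : Fin (n + 1), P (Fin.castSucc j) ≠ 0 →
    MvPolynomial.aeval (fun j => P (Fin.castSucc j)) G ≠ 0 →
    (N - n - 2) * height K P + proximity S P + μ L P ≤ ε * height K P + logDisc K L + C

open Pool.Agent.H431.OC Pool.Agent.H431.MT Pool.Agent.H431.PN Pool.Agent.Q290.NF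
open Pool.Agent.H431.CV Height

theorem lam_eq' {L : Type} [Field L] {n : ℕ} (v : AbsoluteValue L ℝ) (P : Fin (n + 2) → L)
    (h0 : ∀ j : Fin (n + 1), P (Fin.castSucc j) ≠ 0)
    (hs : ∑ j : Fin (n + 1), P (Fin.castSucc j) ≠ 0) :
    localHeight v P = (n + 2) * Real.log (⨆ k, v (P k)) -
      Real.log (v ((∏ j : Fin (n + 1), P (Fin.castSucc j)) *
        ∑ j : Fin (n + 1), P (Fin.castSucc j))) := by
  unfold localHeight
  rw [map_mul, map_prod, Real.log_mul (Finset.prod_ne_zero_iff.2 fun j _ => (v.pos (h0 j)).ne')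
    (v.pos hs).ne', Real.log_prod (fun j _ => (v.pos (h0 j)).ne'), Finset.sum_sub_distrib,
    Finset.sum_const, Finset.card_univ, Fintype.card_fin, nsmul_eq_mul]
  push_cast
  ring

theorem lam_total' {L : Type} [Field L] [NumberField L] {n : ℕ} (P : Fin (n + 2) → L)
    (h0 : ∀ j : Fin (n + 1), P (Fin.castSucc j) ≠ 0)
    (hs : ∑ j : Fin (n + 1), P (Fin.castSucc j) ≠ 0) :
    (Function.support fun w : FinitePlace L => localHeight w.val P).Finite ∧
    ∑ v : InfinitePlace L, v.mult * localHeight v.val P +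
      ∑ᶠ w : FinitePlace L, localHeight w.val P = (n + 2) * logHeight P := by
  have hP : P ≠ 0 := by
    intro h
    exact h0 0 (congrFun h _)
  obtain ⟨z, hz⟩ : ∃ z, z = (∏ j : Fin (n + 1), P (Fin.castSucc j)) *
    ∑ j : Fin (n + 1), P (Fin.castSucc j) := ⟨_, rfl⟩
  have hz0 : z ≠ 0 := by
    rw [hz]
    exact mul_ne_zero (Finset.prod_ne_zero_iff.2 fun j _ => h0 j) hs
  have e : ∀ v : AbsoluteValue L ℝ, localHeight v P = (n + 2) * Real.log (⨆ k, v (P k)) -
      Real.log (v z) := by
    intro v
    rw [hz]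
    exact lam_eq' v P h0 hs
  have s1 : (Function.support fun w : FinitePlace L => Real.log (⨆ k, w.val (P k))).Finite := by
    have h1 : (fun v : AdmissibleAbsValues.nonarchAbsVal (K := L) ↦
        ⨆ i, v.val (P i)).HasFiniteMulSupport := by
      fun_prop
    have h2 : (Function.mulSupport fun w : FinitePlace L => ⨆ k, w.val (P k)).Finite := h1
    refine h2.subset fun w hw => ?_
    rw [Function.mem_support] at hw
    rw [Function.mem_mulSupport]
    intro h
    rw [h, Real.log_one] at hw
    exact hw rfl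
  have s2 : (Function.support fun w : FinitePlace L => Real.log (w.val z)).Finite := by
    have h2 : (Function.mulSupport fun w : FinitePlace L => w.val z).Finite :=
      FinitePlace.hasFiniteMulSupport hz0
    refine h2.subset fun w hw => ?_
    rw [Function.mem_support] at hw
    rw [Function.mem_mulSupport]
    intro h
    rw [h, Real.log_one] at hw
    exact hw rfl
  have s3 : (Function.support fun w : FinitePlace L =>
      ((n : ℝ) + 2) * Real.log (⨆ k, w.val (P k))).Finite := by
    refine s1.subset fun w hw => ?_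
    rw [Function.mem_support] at hw ⊢
    exact right_ne_zero_of_mul hw
  have e1 : (fun w : FinitePlace L => localHeight w.val P) = fun w =>
      ((n : ℝ) + 2) * Real.log (⨆ k, w.val (P k)) - Real.log (w.val z) := by
    funext w
    exact e _
  constructor
  · rw [e1]
    refine (s3.union s2).subset fun w hw => ?_
    by_contra hc
    rw [Set.mem_union, not_or, Function.mem_support, Function.mem_support, not_not, not_not] at hc
    apply hw
    show ((n : ℝ) + 2) * Real.log (⨆ k, w.val (P k)) - Real.log (w.val z) = 0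
    rw [hc.1, hc.2, sub_zero]
  · have h1 := logHeight_sum P hP
    have h2 := prod_sum hz0
    have h3 : ∑ᶠ w : FinitePlace L, localHeight w.val P = (n + 2) * (∑ᶠ w : FinitePlace L,
        Real.log (⨆ k, w.val (P k))) - ∑ᶠ w : FinitePlace L, Real.log (w.val z) := by
      have e4 := mul_finsum (fun w : FinitePlace L => Real.log (⨆ k, w.val (P k)))
        ((n : ℝ) + 2)
      rw [e1, finsum_sub_distrib s3 s2, e4]
    have h4 : ∑ v : InfinitePlace L, v.mult * localHeight v.val P = (n + 2) *
        (∑ v : InfinitePlace L, v.mult * Real.log (⨆ k, v.val (P k))) -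
        ∑ v : InfinitePlace L, v.mult * Real.log (v.val z) := by
      rw [Finset.mul_sum, ← Finset.sum_sub_distrib]
      refine Finset.sum_congr rfl fun v _ => ?_
      rw [e]
      ring
    rw [h3, h4, h1]
    linarith

/-- the local height at the primes where the coordinates `x_j` are integral, with sum one, and
`b z` is integral -/
theorem lam_fin' {L : Type} [Field L] [NumberField L] {n : ℕ} (P : Fin (n + 2) → L)
    (h0 : ∀ j : Fin (n + 1), P (Fin.castSucc j) ≠ 0)
    (hs : ∑ j : Fin (n + 1), P (Fin.castSucc j) = 1) (w : FinitePlace L) (b : ℕ)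
    (h : ∀ j : Fin (n + 1), 0 ≤ ord w.maximalIdeal (P (Fin.castSucc j)))
    (hz : -ord w.maximalIdeal (b : L) ≤ ord w.maximalIdeal (P (Fin.last (n + 1)))) :
    localHeight w.val P ≤ (∑ j : Fin (n + 1), (ord w.maximalIdeal (P (Fin.castSucc j)) : ℝ) +
      (n + 2) * ord w.maximalIdeal (b : L)) * ell w.maximalIdeal := by
  have hw : FinitePlace.mk w.maximalIdeal = w := FinitePlace.mk_maximalIdeal w
  have e1 : ∀ x : L, x ≠ 0 → Real.log (w.val x) = -(ord w.maximalIdeal x : ℝ) *
      ell w.maximalIdeal := by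
    intro x hx
    have := log_mk w.maximalIdeal hx
    rw [hw] at this
    exact this
  have hl := ell_pos w.maximalIdeal
  have hb := nat_nonneg w.maximalIdeal b (K := L)
  have hb' : (0 : ℝ) ≤ (ord w.maximalIdeal (b : L) : ℝ) := by exact_mod_cast hb
  have hP0 : P ≠ 0 := fun hP => h0 0 (congrFun hP _)
  have e3 : Real.log (⨆ k, w.val (P k)) ≤ (ord w.maximalIdeal (b : L) : ℝ) *
      ell w.maximalIdeal := by
    obtain ⟨k, hk⟩ := Finite.exists_max fun i => w.val (P i)
    have h1 : (⨆ k, w.val (P k)) ≤ w.val (P k) := ciSup_le hk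
    have h2 : 0 < ⨆ k, w.val (P k) := sup_pos hP0 w.val
    have h3 : P k ≠ 0 := by
      intro h3
      rw [h3, map_zero] at h1
      linarith
    refine (Real.log_le_log h2 h1).trans ?_
    rw [e1 _ h3]
    refine mul_le_mul_of_nonneg_right ?_ hl.le
    have h4 : -ord w.maximalIdeal (b : L) ≤ ord w.maximalIdeal (P k) := by
      refine Fin.lastCases ?_ (fun j => ?_) k
      · exact hz
      · have := h j
        omega
    have h5 : -(ord w.maximalIdeal (b : L) : ℝ) ≤ ord w.maximalIdeal (P k) := by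
      exact_mod_cast h4
    linarith
  unfold localHeight
  rw [hs, map_one, Real.log_one, sub_zero]
  have e4 : ∑ j : Fin (n + 1), (Real.log (⨆ k, w.val (P k)) -
      Real.log (w.val (P (Fin.castSucc j)))) = (n + 1) * Real.log (⨆ k, w.val (P k)) +
      (∑ j : Fin (n + 1), (ord w.maximalIdeal (P (Fin.castSucc j)) : ℝ)) *
        ell w.maximalIdeal := by
    rw [Finset.sum_sub_distrib, Finset.sum_const, Finset.card_univ, Fintype.card_fin,
      nsmul_eq_mul, Finset.sum_mul]
    have e5 : ∑ j : Fin (n + 1), Real.log (w.val (P (Fin.castSucc j))) =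
        -∑ j : Fin (n + 1), (ord w.maximalIdeal (P (Fin.castSucc j)) : ℝ) *
          ell w.maximalIdeal := by
      rw [← Finset.sum_neg_distrib]
      refine Finset.sum_congr rfl fun j _ => ?_
      rw [e1 _ (h0 j)]
      ring
    rw [e5]
    push_cast
    ring
  rw [e4]
  have h6 := mul_le_mul_of_nonneg_left e3 (show (0 : ℝ) ≤ n + 2 by positivity)
  linarith

/-- finite sums -/
theorem sum_le_sm' {L : Type} [Field L] [NumberField L] {g : HeightOneSpectrum (𝓞 L) → ℝ}
    (hg : (Function.support g).Finite) (h0 : ∀ v, 0 ≤ g v) (R : Finset (HeightOneSpectrum (𝓞 L))) :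
    ∑ v ∈ R, g v * ell v ≤ sm g := by
  classical
  unfold sm
  rw [finsum_eq_sum_of_support_subset (s := (supp_mul hg).toFinset ∪ R)]
  · refine Finset.sum_le_sum_of_subset_of_nonneg Finset.subset_union_right fun v _ _ => ?_
    exact mul_nonneg (h0 v) (ell_pos v).le
  · rw [Finset.coe_union, Set.Finite.coe_toFinset]
    exact Set.subset_union_left

/-- the sums of the orders of nonzero elements over the primes outside `2` -/
theorem supp_ords {L : Type} [Field L] [NumberField L] {n : ℕ} (P : Fin (n + 1) → L)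
    (h0 : ∀ j, P j ≠ 0) : (Function.support fun w : HeightOneSpectrum (𝓞 L) =>
      if ord w (2 : L) = 0 then ∑ j, (ord w (P j) : ℝ) else 0).Finite := by
  refine (Set.finite_iUnion fun j => fin_ord (h0 j)).subset fun w hw => ?_
  rw [Function.mem_support] at hw
  rw [Set.mem_iUnion]
  by_contra hc
  push Not at hc
  apply hw
  split_ifs
  · refine Finset.sum_eq_zero fun j _ => ?_
    have h1 := hc j
    rw [Set.mem_ofPred_eq, not_not] at h1
    rw [h1, Int.cast_zero]
  · rfl

/-- the field generated by the coordinates -/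
theorem gen_all {K L E : Type} [Field K] [Field L] [Field E] [Algebra K L] [Algebra L E]
    [Algebra K E] [IsScalarTower K L E] {ι : Type} (y : ι → L)
    (hy : IntermediateField.adjoin K (Set.range y) = ⊤) (z : E)
    (hz : IntermediateField.adjoin L {z} = ⊤) (S : IntermediateField K E)
    (h1 : ∀ j, algebraMap L E (y j) ∈ S) (h2 : z ∈ S) : S = ⊤ := by
  have h3 : ∀ l : L, algebraMap L E l ∈ S := by
    have h4 : (⊤ : IntermediateField K L) ≤
        IntermediateField.comap (IsScalarTower.toAlgHom K L E) S := by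
      rw [← hy, IntermediateField.adjoin_le_iff]
      rintro _ ⟨j, rfl⟩
      exact h1 j
    intro l
    exact h4 (IntermediateField.mem_top (x := l))
  rw [← top_le_iff]
  intro x _
  have hx : x ∈ IntermediateField.adjoin L {z} := by
    rw [hz]
    exact IntermediateField.mem_top
  induction hx using IntermediateField.adjoin_induction with
  | mem x hx =>
    rw [Set.mem_singleton_iff] at hx
    rw [hx]
    exact h2
  | algebraMap x => exact h3 x
  | add x y _ _ hx hy => exact S.add_mem (hx trivial) (hy trivial)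
  | inv x _ hx => exact S.inv_mem (hx trivial)
  | mul x y _ _ hx hy => exact S.mul_mem (hx trivial) (hy trivial)

/-- **The exceptional set grows with the degree of the points, on every hypersurface.** Let `X` be the
hypersurface `z^N + ∑_{i < N} A_i(x) z^i = 0` of `ℙ^{n+1}`, let `S` contain all the primes of `K`
above `2`, let `ε < 1 - 1 / n`, and choose `e ≥ 1` with `1 + n / 2^e < (1 - ε) n`. Let `G(x) ≠ 0` be a
form of degree `d ≥ 1` that is zero at all points of `X` where the derivative of the equation with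
respect to `z` is zero, and let `μ` be any function bounded below. If `G = 0` contains an exceptional
set for `I`, `μ`, `S`, `ε` and the points of degree at most `r` over `K`, then
`r < N 2^(e + 1) (2 d)^(n - 1)`. -/
theorem result (K : Type) [Field K] [NumberField K] (S : Finset (HeightOneSpectrum (𝓞 K)))
    (hS : ∀ p : HeightOneSpectrum (𝓞 K), (2 : 𝓞 K) ∈ p.asIdeal → p ∈ S)
    (n N r : ℕ) (hN : 1 ≤ N) (A : ℕ → MvPolynomial (Fin (n + 1)) K)
    (hA : ∀ i < N, (A i).IsHomogeneous (N - i))
    (ε : ℝ) (e : ℕ) (he1 : 1 ≤ e) (he : 1 + (n : ℝ) / 2 ^ e < (1 - ε) * n)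
    (d : ℕ) (hd : 1 ≤ d) (G : MvPolynomial (Fin (n + 1)) K) (hG : G ≠ 0)
    (hdeg : G.IsHomogeneous d)
    (hGF : ∀ (L : Type) [Field L] [NumberField L] [Algebra K L] (P : Fin (n + 2) → L),
      equation N A P = 0 → derivative N A P = 0 →
      MvPolynomial.aeval (fun j => P (Fin.castSucc j)) G = 0)
    (μ : PointFunction K n) (hμ : μ.BoundedBelow) (h : Exceptional S μ N A r ε G) :
    r < N * (2 ^ (e + 1) * (2 * d) ^ (n - 1)) := by
  classical
  by_contra hr
  rw [not_lt] at hr
  obtain ⟨C0, H0⟩ := h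
  obtain ⟨B0, hB0⟩ := hμ
  obtain ⟨C, H⟩ : ∃ C : ℝ, ∀ (L : Type) [Field L] [NumberField L] [Algebra K L]
      (P : Fin (n + 2) → L), equation N A P = 0 →
      IntermediateField.adjoin K {x : L | ∃ i j, x = P i / P j} = ⊤ → Module.finrank K L ≤ r →
      (∀ j : Fin (n + 1), P (Fin.castSucc j) ≠ 0) → ∑ j : Fin (n + 1), P (Fin.castSucc j) ≠ 0 →
      MvPolynomial.aeval (fun j => P (Fin.castSucc j)) G ≠ 0 →
      (N - n - 2) * height K P + proximity S P ≤ ε * height K P + logDisc K L + C :=
    ⟨C0 - B0, fun L _ _ _ P a1 a2 a3 a4 a5 a6 => by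
      have b1 := H0 L P a1 a2 a3 a4 a5 a6
      have b2 := hB0 L P
      linarith⟩
  obtain ⟨C1, b, hb0, hcov⟩ := prox_cover K hN A hA
  obtain ⟨k, hk⟩ : ∃ k : ℝ, k = Module.finrank ℚ K := ⟨_, rfl⟩
  obtain ⟨T, hT⟩ : ∃ T : ℝ, T = C + k * C1 + (n + 2) * (k * Real.log b) := ⟨_, rfl⟩
  obtain ⟨M, i1, i2, i3, P, hP, hPs, hdegM, hP0, hGP, hint, hmain⟩ := main_un K n d e he1 hd G hG
    hdeg (1 - ε) he T
  obtain ⟨E, j1, j2, j3, j4, j5, z, hz, hdegE, hadj, hzint, hDD⟩ := hcov M P hPs hint
  have hnE : 0 ≤ (n : ℝ) / 2 ^ e := by positivity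
  have hc0 : 0 < 1 - ε := by
    by_contra h
    have := mul_nonpos_of_nonpos_of_nonneg (not_lt.1 h) (Nat.cast_nonneg (α := ℝ) n)
    linarith
  -- the point
  obtain ⟨Q, hQ⟩ : ∃ Q : Fin (n + 2) → E, Q = Fin.snoc (fun j => algebraMap M E (P j)) z :=
    ⟨_, rfl⟩
  have hQ1 : ∀ j : Fin (n + 1), Q (Fin.castSucc j) = algebraMap M E (P j) := by
    intro j
    rw [hQ]
    exact Fin.snoc_castSucc (α := fun _ => E) z _ j
  have hQ2 : Q (Fin.last (n + 1)) = z := by
    rw [hQ]
    exact Fin.snoc_last (α := fun _ => E) z _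
  have hQ3 : (fun j : Fin (n + 1) => Q (Fin.castSucc j)) = fun j => algebraMap M E (P j) :=
    funext hQ1
  have heq : equation N A Q = 0 := by
    unfold equation
    rw [hQ3, hQ2]
    exact hz
  have hQs : ∑ j : Fin (n + 1), Q (Fin.castSucc j) = 1 := by
    simp_rw [hQ1]
    rw [← map_sum, hPs, map_one]
  have hQs0 : ∑ j : Fin (n + 1), Q (Fin.castSucc j) ≠ 0 := by
    rw [hQs]
    exact one_ne_zero
  have hQ0 : ∀ j : Fin (n + 1), Q (Fin.castSucc j) ≠ 0 := by
    intro j
    rw [hQ1]
    exact (_root_.map_ne_zero _).2 (hP0 j)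
  have hGQ : MvPolynomial.aeval (fun j => Q (Fin.castSucc j)) G ≠ 0 := by
    rw [hQ3]
    have h1 : MvPolynomial.aeval (fun j => algebraMap M E (P j)) G =
        algebraMap M E (MvPolynomial.aeval P G) := MvPolynomial.aeval_algebraMap_apply E P G
    rw [h1]
    exact (_root_.map_ne_zero _).2 hGP
  have hder : derivative N A Q ≠ 0 := fun h => hGQ (hGF E Q heq h)
  have hDE := hDD (by
    unfold derivative at hder
    rw [hQ3, hQ2] at hder
    exact hder)
  rw [← hQ] at hDE
  -- generation
  have hgen : IntermediateField.adjoin K {x : E | ∃ i j, x = Q i / Q j} = ⊤ := by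
    have h0 : ∀ j : Fin (n + 1), Q (Fin.castSucc j) ∈
        IntermediateField.adjoin K {x : E | ∃ i j, x = Q i / Q j} := by
      intro j
      have h1 : Q (Fin.castSucc j) =
          (∑ i : Fin (n + 1), Q (Fin.castSucc i) / Q (Fin.castSucc j))⁻¹ := by
        rw [← Finset.sum_div, hQs, one_div, inv_inv]
      rw [h1]
      refine inv_mem (sum_mem fun i _ => ?_)
      exact IntermediateField.subset_adjoin K _ ⟨Fin.castSucc i, Fin.castSucc j, rfl⟩
    refine gen_all P hP z hadj _ (fun j => ?_) ?_
    · rw [← hQ1]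
      exact h0 j
    · have h1 : z = z / Q (Fin.castSucc 0) * Q (Fin.castSucc 0) := by
        rw [div_mul_cancel₀ _ (hQ0 0)]
      rw [h1]
      refine mul_mem ?_ (h0 0)
      exact IntermediateField.subset_adjoin K _ ⟨Fin.last (n + 1), Fin.castSucc 0, by rw [hQ2]⟩
  have fKM : Module.Finite K M := Module.Finite.of_restrictScalars_finite ℚ K M
  have fKE : Module.Finite K E := Module.Finite.of_restrictScalars_finite ℚ K E
  have fME : Module.Finite M E := Module.Finite.of_restrictScalars_finite ℚ M E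
  have hKE : Module.finrank K M * Module.finrank M E = Module.finrank K E :=
    Module.finrank_mul_finrank K M E
  have hdegr : Module.finrank K E ≤ r := by
    refine le_trans ?_ hr
    rw [← hKE, mul_comm]
    exact Nat.mul_le_mul hdegE hdegM
  have h1 := H E Q heq hgen hdegr hQ0 hQs0 hGQ
  obtain ⟨hfin, htot⟩ := lam_total' Q hQ0 hQs0
  obtain ⟨B, hB⟩ : ∃ B : FinitePlace E → Prop, B = fun v => ∃ p ∈ S,
    v.maximalIdeal.asIdeal.comap (algebraMap (𝓞 K) (𝓞 E)) = p.asIdeal := ⟨_, rfl⟩
  -- splitting the sum over the finite places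
  have hsplit : ∑ᶠ v : FinitePlace E, localHeight v.val Q =
      ∑ᶠ v : FinitePlace E, (if B v then localHeight v.val Q else 0) +
      ∑ᶠ v : FinitePlace E, (if B v then 0 else localHeight v.val Q) := by
    rw [← finsum_add_distrib]
    · refine finsum_congr fun v => ?_
      split_ifs
      · rw [add_zero]
      · rw [zero_add]
    · refine hfin.subset fun v hv => ?_
      rw [Function.mem_support] at hv ⊢
      intro h0
      rw [h0, ite_self] at hv
      exact hv rfl
    · refine hfin.subset fun v hv => ?_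
      rw [Function.mem_support] at hv ⊢
      intro h0
      rw [h0, ite_self] at hv
      exact hv rfl
  -- a place not above `S` is not above `2`
  have h2 : ∀ v : FinitePlace E, ¬ B v → ord v.maximalIdeal (2 : E) = 0 := by
    intro v hv
    by_contra h0
    apply hv
    have h3 := nat_nonneg v.maximalIdeal 2 (K := E)
    have h4 : 0 < ord v.maximalIdeal (2 : E) := by
      have h5 : ord v.maximalIdeal ((2 : ℕ) : E) = ord v.maximalIdeal (2 : E) := by norm_num
      omega
    have h5 : v.maximalIdeal.valuation E (2 : E) < 1 := (ord_pos_iff _ two_ne_zero).1 h4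
    have h6 : (2 : 𝓞 E) ∈ v.maximalIdeal.asIdeal := by
      rw [← v.maximalIdeal.valuation_lt_one_iff_mem (K := E)]
      have e0 : algebraMap (𝓞 E) E 2 = 2 := map_ofNat _ 2
      rw [← e0] at h5
      exact h5
    obtain ⟨p, hp⟩ : ∃ p : HeightOneSpectrum (𝓞 K), p = v.maximalIdeal.under (𝓞 K) := ⟨_, rfl⟩
    refine (hB ▸ ⟨p, hS p ?_, ?_⟩ : B v)
    · rw [hp]
      show (2 : 𝓞 K) ∈ v.maximalIdeal.asIdeal.comap (algebraMap (𝓞 K) (𝓞 E))
      rw [Ideal.mem_comap, map_ofNat]
      exact h6
    · rw [hp]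
      rfl
  -- the places outside `S`
  have hfin2 : (Function.support fun v : FinitePlace E =>
      if B v then 0 else localHeight v.val Q).Finite := by
    refine hfin.subset fun v hv => ?_
    rw [Function.mem_support] at hv ⊢
    intro h0
    rw [h0, ite_self] at hv
    exact hv rfl
  have h3 : ∀ v ∈ hfin2.toFinset, ¬ B v := by
    intro v hv hAv
    rw [Set.Finite.mem_toFinset, Function.mem_support, if_pos hAv] at hv
    exact hv rfl
  have h4 : ∑ᶠ v : FinitePlace E, (if B v then 0 else localHeight v.val Q) =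
      ∑ v ∈ hfin2.toFinset, localHeight v.val Q := by
    rw [finsum_eq_sum_of_support_subset (s := hfin2.toFinset)]
    · refine Finset.sum_congr rfl fun v hv => ?_
      rw [if_neg (h3 v hv)]
    · rw [Set.Finite.coe_toFinset]
  obtain ⟨f, hf⟩ : ∃ f : HeightOneSpectrum (𝓞 E) → ℝ, f = fun w =>
    if ord w (2 : E) = 0 then ∑ j : Fin (n + 1), (ord w (Q (Fin.castSucc j)) : ℝ) else 0 :=
    ⟨_, rfl⟩
  obtain ⟨g, hg⟩ : ∃ g : HeightOneSpectrum (𝓞 M) → ℝ, g = fun v =>
    if ord v (2 : M) = 0 then ∑ j : Fin (n + 1), (ord v (P j) : ℝ) else 0 := ⟨_, rfl⟩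
  have hfs : (Function.support f).Finite := by
    rw [hf]
    exact supp_ords (fun j => Q (Fin.castSucc j)) hQ0
  have hgs : (Function.support g).Finite := by
    rw [hg]
    exact supp_ords P hP0
  have hg0 : ∀ v, 0 ≤ g v := by
    intro v
    rw [hg]
    simp only
    split_ifs with h
    · exact Finset.sum_nonneg fun j _ => by exact_mod_cast hint v h j
    · exact le_rfl
  have hfg : ∀ (v : HeightOneSpectrum (𝓞 M)) (w : HeightOneSpectrum (𝓞 E)) (e : ℕ), e ≠ 0 →
      (∀ z : M, ord w (algebraMap M E z) = e * ord v z) → f w = e * g v := by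
    intro v w e he0 hvw
    rw [hf, hg]
    simp only
    have h2w := hvw 2
    rw [map_ofNat] at h2w
    by_cases hv2 : ord v (2 : M) = 0
    · rw [if_pos hv2, if_pos (by rw [h2w, hv2, mul_zero]), Finset.mul_sum]
      refine Finset.sum_congr rfl fun j _ => ?_
      rw [hQ1, hvw]
      push_cast
      rfl
    · rw [if_neg hv2, if_neg, mul_zero]
      rw [h2w]
      exact mul_ne_zero (by exact_mod_cast he0) hv2
  have hf0 : ∀ w, 0 ≤ f w := by
    intro w
    have hl : w.asIdeal.LiesOver (w.under (𝓞 M)).asIdeal := ⟨rfl⟩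
    rw [hfg (w.under (𝓞 M)) w _ (ram_ne (w.under (𝓞 M)) w hl) (ord_above (w.under (𝓞 M)) w hl)]
    exact mul_nonneg (Nat.cast_nonneg _) (hg0 _)
  have hsm := sm_ext hfs hgs hg0 (fun v w e he0 hvw => (hfg v w e he0 hvw).le)
  obtain ⟨R, hR⟩ : ∃ R : Finset (HeightOneSpectrum (𝓞 E)), R = hfin2.toFinset.map
    (FinitePlace.equivHeightOneSpectrum (K := E)).toEmbedding := ⟨_, rfl⟩
  have h5 : ∑ v ∈ hfin2.toFinset, localHeight v.val Q ≤
      ∑ w ∈ R, (f w * ell w + (n + 2) * (max 0 (ord w (b : E) : ℝ) * ell w)) := by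
    rw [hR, Finset.sum_map]
    refine Finset.sum_le_sum fun v hv => ?_
    have hv2 := h2 v (h3 v hv)
    have hint' : ∀ j : Fin (n + 1), 0 ≤ ord v.maximalIdeal (Q (Fin.castSucc j)) := by
      intro j
      have hl : v.maximalIdeal.asIdeal.LiesOver (v.maximalIdeal.under (𝓞 M)).asIdeal := ⟨rfl⟩
      have a1 := ord_above (v.maximalIdeal.under (𝓞 M)) v.maximalIdeal hl
      have a2 := ram_ne (v.maximalIdeal.under (𝓞 M)) v.maximalIdeal hl
      have a3 := a1 2
      rw [map_ofNat, hv2] at a3
      have a4 : ord (v.maximalIdeal.under (𝓞 M)) (2 : M) = 0 := by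
        rcases mul_eq_zero.1 a3.symm with h | h
        · exact absurd (by exact_mod_cast h) a2
        · exact h
      rw [hQ1, a1]
      exact mul_nonneg (Int.natCast_nonneg _) (hint _ a4 j)
    have h6 := lam_fin' Q hQ0 hQs v b hint' (by
      rw [hQ2]
      exact hzint _ hv2)
    refine h6.trans (le_of_eq ?_)
    have hbn : (0 : ℝ) ≤ (ord v.maximalIdeal (b : E) : ℝ) := by
      exact_mod_cast nat_nonneg v.maximalIdeal b (K := E)
    show _ = f v.maximalIdeal * ell v.maximalIdeal + (n + 2) *
      (max 0 (ord v.maximalIdeal (b : E) : ℝ) * ell v.maximalIdeal)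
    rw [max_eq_right hbn, hf]
    simp only
    rw [if_pos hv2]
    ring
  have h6 : ∑ w ∈ R, (f w * ell w + (n + 2) * (max 0 (ord w (b : E) : ℝ) * ell w)) ≤
      sm f + (n + 2) * (Module.finrank ℚ E * Real.log b) := by
    rw [Finset.sum_add_distrib, ← Finset.mul_sum]
    refine add_le_add (sum_le_sm' hfs hf0 R) (mul_le_mul_of_nonneg_left ?_ (by positivity))
    refine (sum_le_sm' (supp_zeros (b : E)) (fun v => le_max_left _ _) R).trans ?_
    exact (zeros_le (b : E)).trans (height_nat hb0)
  have h7 : sm g = ∑ v ∈ hgs.toFinset, (∑ j, (ord v (P j) : ℝ)) * ell v := by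
    unfold sm
    rw [finsum_eq_sum_of_support_subset (s := hgs.toFinset)]
    · refine Finset.sum_congr rfl fun v hv => ?_
      rw [Set.Finite.mem_toFinset, Function.mem_support, hg] at hv
      simp only at hv
      rw [hg]
      simp only
      by_cases hv2 : ord v (2 : M) = 0
      · rw [if_pos hv2]
      · rw [if_neg hv2] at hv
        exact absurd rfl hv
    · intro v hv
      rw [Set.Finite.coe_toFinset]
      exact left_ne_zero_of_mul hv
  have h8 := hmain hgs.toFinset (by
    intro v hv
    rw [Set.Finite.mem_toFinset, Function.mem_support, hg] at hv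
    simp only at hv
    by_contra hv2
    rw [if_neg hv2] at hv
    exact hv rfl)
  rw [← h7] at h8
  have h9 : (Module.finrank M E : ℝ) * Height.logHeight P ≤ Height.logHeight Q := by
    have a1 := Height.logHeight_comp_le (Fin.castSucc : Fin (n + 1) → Fin (n + 2)) Q
    have a2 : Q ∘ Fin.castSucc = fun j => algebraMap M E (P j) := hQ3
    rw [a2, Pool.Agent.Helper259.HtExt.logHeight_ext] at a1
    exact a1
  have hp : (0 : ℝ) < Module.finrank K E := by exact_mod_cast Module.finrank_pos
  unfold proximity logDisc height at h1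
  have h10 := mul_le_mul_of_nonneg_right h1 hp.le
  obtain ⟨X, hX⟩ : ∃ X : ℝ, X = ∑ᶠ v : FinitePlace E,
    (if B v then localHeight v.val Q else 0) := ⟨_, rfl⟩
  have hX2 : (∑ᶠ v : FinitePlace E,
      if ∃ p ∈ S, v.maximalIdeal.asIdeal.comap (algebraMap (𝓞 K) (𝓞 E)) = p.asIdeal
      then localHeight v.val Q else 0) = X := by
    rw [hX]
    refine finsum_congr fun v => ?_
    by_cases hAv : B v
    · rw [if_pos hAv, if_pos (by rw [hB] at hAv; exact hAv)]
    · rw [if_neg hAv, if_neg (by rw [hB] at hAv; exact hAv)]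
  obtain ⟨Y, hY⟩ : ∃ Y : ℝ, Y = ∑ v : InfinitePlace E, v.mult * localHeight v.val Q := ⟨_, rfl⟩
  have e1 : (((N : ℝ) - n - 2) * (Height.logHeight Q / (Module.finrank K E : ℝ)) +
      (∑ v : InfinitePlace E, v.mult * localHeight v.val Q +
    ∑ᶠ v : FinitePlace E,
      if ∃ p ∈ S, v.maximalIdeal.asIdeal.comap (algebraMap (𝓞 K) (𝓞 E)) = p.asIdeal
      then localHeight v.val Q else 0) / Module.finrank K E) * Module.finrank K E =
      ((N : ℝ) - n - 2) * Height.logHeight Q + (Y + X) := by
    rw [hX2, ← hY]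
    field_simp
  have e2 : (ε * (Height.logHeight Q / (Module.finrank K E : ℝ)) +
      (Real.log |(NumberField.discr E : ℝ)| / Module.finrank K E -
        Real.log |(NumberField.discr K : ℝ)|) + C) * Module.finrank K E =
      ε * Height.logHeight Q + (Real.log |(NumberField.discr E : ℝ)| +
        Module.finrank K E * (C - Real.log |(NumberField.discr K : ℝ)|)) := by
    field_simp
    ring
  rw [e1, e2] at h10
  rw [hsplit, ← hX, ← hY, h4] at htot
  -- the final computation
  obtain ⟨p, hpp⟩ : ∃ p : ℝ, p = (Module.finrank M E : ℝ) := ⟨_, rfl⟩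
  have hp0 : 0 < p := by
    rw [hpp]
    exact_mod_cast Module.finrank_pos
  have r1 : (Module.finrank K E : ℝ) = Module.finrank K M * p := by
    rw [hpp]
    exact_mod_cast hKE.symm
  have r2 : (Module.finrank ℚ E : ℝ) = k * (Module.finrank K M * p) := by
    rw [← r1, hk]
    exact_mod_cast (Module.finrank_mul_finrank ℚ K E).symm
  obtain ⟨mK, hmK⟩ : ∃ x : ℝ, x = (Module.finrank K M : ℝ) := ⟨_, rfl⟩
  obtain ⟨hE, hhE⟩ : ∃ hE : ℝ, hE = Height.logHeight Q := ⟨_, rfl⟩
  obtain ⟨hM, hhM⟩ : ∃ hM : ℝ, hM = Height.logHeight P := ⟨_, rfl⟩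
  obtain ⟨dE, hdE⟩ : ∃ dE : ℝ, dE = DD E := ⟨_, rfl⟩
  obtain ⟨dM, hdM⟩ : ∃ dM : ℝ, dM = DD M := ⟨_, rfl⟩
  obtain ⟨dK, hdK⟩ : ∃ dK : ℝ, dK = DD K := ⟨_, rfl⟩
  have dE' : Real.log |(NumberField.discr E : ℝ)| = dE := hdE.symm
  have dK' : Real.log |(NumberField.discr K : ℝ)| = dK := hdK.symm
  obtain ⟨sF, hsF⟩ : ∃ x : ℝ, x = sm f := ⟨_, rfl⟩
  obtain ⟨sG, hsG⟩ : ∃ x : ℝ, x = sm g := ⟨_, rfl⟩
  obtain ⟨sL, hsL⟩ : ∃ x : ℝ, x = ∑ v ∈ hfin2.toFinset, localHeight v.val Q := ⟨_, rfl⟩
  rw [dE', dK', r1, ← hmK, ← hhE] at h10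
  rw [← hsL, ← hhE] at htot
  have h11 := h5.trans h6
  rw [← hsL, ← hsF, r2, ← hmK] at h11
  rw [← hsF, ← hsG, ← hpp] at hsm
  rw [← hdE, ← hdM, ← hpp, ← hhE, r2, ← hmK] at hDE
  rw [← hdM, ← hsG, ← hmK, ← hdK, ← hhM] at h8
  rw [← hpp, ← hhM, ← hhE] at h9
  have u8 := mul_lt_mul_of_pos_left h8 hp0
  have u9 := mul_le_mul_of_nonneg_left h9 hc0.le
  rw [hT] at u8
  have v1 : p * (dM + sG + mK * (C + k * C1 + (n + 2) * (k * Real.log b) - dK)) =
      p * dM + p * sG + mK * p * (C - dK) + k * (mK * p) * C1 +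
        (n + 2) * (k * (mK * p) * Real.log b) := by ring
  have v2 : p * ((1 - ε) * hM) = (1 - ε) * (p * hM) := by ring
  rw [v1, v2] at u8
  have v3 : ((N : ℝ) - n - 2) * hE = N * hE - (n + 2) * hE := by ring
  rw [v3] at h10
  have v4 : (1 - ε) * hE = hE - ε * hE := by ring
  rw [v4] at u9
  have v5 : ((N : ℝ) - 1) * hE = N * hE - hE := by ring
  rw [v5] at hDE
  linarith

end Pool.Agent.Results.MP_8865d3_nt.HypersurfaceProximity
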