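import Pool.Agent.H431.EC.Go
import Pool.Agent.H431.EC.Zero

/-!
# Products with a hyperelliptic curve: the set `Z` depends on the degree of the points

`X = C_1 × … × C_n` is a product of smooth projective curves. Each curve `C_i` is

* a hyperelliptic curve `y² = f_i(x)`, `f_i` squarefree of degree at least `5`, of genus
  `g_i = ⌊(deg f_i - 1) / 2⌋ ≥ 2`, with the map `x_i = x` to `ℙ¹`, or
* any curve of genus `g_i ≥ 1` with a map `x_i : C_i → ℙ¹` that is étale outside `0`, `1`, `∞`. By
  Belyĭ's theorem, every smooth projective curve over `K` has such a map.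

Here `K_X ≡ ∑_i κ_i x_i^*(∞)` with `κ_i = (2 g_i - 2) / deg x_i`, the divisor `A = ∑_i x_i^*(∞)` is
ample, `h_{K_X}(P) = ∑_i κ_i h(x_i) + o(h_A(P))` and `h_A(P) = ∑_i h(x_i) + O(1)`. Heights and
discriminants are normalised relative to `K` (`K = ℚ` in the problem).
-/

set_option autoImplicit false

namespace Pool.Agent.Results.MP_8865d3_nt.ProductsWithHyperellipticCurve

open IsDedekindDomain NumberField

/-- A smooth projective curve `C` with a map `x : C → ℙ¹` that is étale outside `0`, `1`, `∞`. -/
structure Cover (K : Type) [Field K] : Type 1 where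
  /-- The ring of the functions on `C` that are regular outside `x⁻¹(∞)`. -/
  B : Type
  [ring : CommRing B]
  /-- `B` is an algebra over the ring `K[X]` by means of `X ↦ x`. -/
  [algebra : Algebra (Polynomial K) B]
  /-- The number `κ = (2 g - 2) / deg x`. -/
  κ : ℝ

attribute [instance] Cover.ring Cover.algebra

/-- A curve: `hyperelliptic f` is the smooth projective curve `y² = f(x)`, and `cover c` is a curve
with a map `x` to `ℙ¹` that is étale outside `0`, `1`, `∞`. -/
inductive Curve (K : Type) [Field K] : Type 1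
  | hyperelliptic (f : Polynomial K) : Curve K
  | cover (c : Cover K) : Curve K

/-- The polynomial `f` is squarefree of degree at least `5`; the algebra `B` is finite and free over
`K[X]`, and étale outside `X = 0` and `X = 1`. -/
def Curve.Valid {K : Type} [Field K] : Curve K → Prop
  | .hyperelliptic f => Squarefree f ∧ 5 ≤ f.natDegree
  | .cover c => Pool.Agent.H431.EC.IsEtaleCover K c.B

/-- The curve is one of the curves `y² = f(x)`. -/
def Curve.IsHyperelliptic {K : Type} [Field K] : Curve K → Prop
  | .hyperelliptic _ => True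
  | .cover _ => False

/-- The number `κ = (2 g - 2) / deg x`; the genus of `y² = f(x)` is `g = ⌊(deg f - 1) / 2⌋`. -/
noncomputable def Curve.kappa {K : Type} [Field K] : Curve K → ℝ
  | .hyperelliptic f => (((f.natDegree - 1) / 2 : ℕ) : ℝ) - 1
  | .cover c => c.κ

/-- The weight of a curve: `ω` for the curves `y² = f(x)`, and `κ - ε` for the other curves. -/
noncomputable def Curve.weight {K : Type} [Field K] (ω ε : ℝ) : Curve K → ℝ
  | .hyperelliptic _ => ω
  | .cover c => c.κ - ε

/-- The indices of the coordinates other than `x`: there is one for the curve `y² = f(x)`, and every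
function in `B` is a coordinate of the curve `cover c`. -/
def Curve.Coord {K : Type} [Field K] : Curve K → Type
  | .hyperelliptic _ => Unit
  | .cover c => c.B

/-- `(x, y)` is a point of `C` (for the curves `y² = f(x)` a point with `x ≠ ∞`, for the curves
`cover c` a point with `x ≠ 0, 1, ∞`: `y` is a ring homomorphism from `B` to `L` that is
`p ↦ p(x)` on `K[X]`). -/
def Curve.Lies {K : Type} [Field K] {L : Type} [Field L] [Algebra K L] :
    (P : Curve K) → L → (P.Coord → L) → Prop
  | .hyperelliptic f, x, y => y () ^ 2 = Polynomial.aeval x f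
  | .cover c, x, y => x ≠ 0 ∧ x ≠ 1 ∧ ∃ χ : c.B →+* L,
      (∀ p : Polynomial K, χ (algebraMap (Polynomial K) c.B p) = Polynomial.aeval x p) ∧
      ∀ z : c.B, y z = χ z

/-- The height of the point `x ∈ L` of the line, relative to `K`. -/
noncomputable def height (K : Type) {L : Type} [Field K] [Field L] [NumberField L] [Algebra K L]
    (x : L) : ℝ :=
  Height.logHeight₁ x / Module.finrank K L

/-- The logarithmic discriminant of `L / K`, `log |disc L| / [L : K] - log |disc K|`. -/
noncomputable def logDisc (K L : Type) [Field K] [NumberField K] [Field L] [NumberField L]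
    [Algebra K L] : ℝ :=
  Real.log |(NumberField.discr L : ℝ)| / Module.finrank K L -
    Real.log |(NumberField.discr K : ℝ)|

/-- A function on the points of `X` over the finite extensions `L` of `K`. -/
def PointFunction {K : Type} [Field K] {n : ℕ} (F : Fin n → Curve K) : Type 1 :=
  ∀ (L : Type) [Field L] [NumberField L] [Algebra K L],
    (Fin n → L) → (∀ i, (F i).Coord → L) → ℝ

/-- The function is bounded below. -/
def PointFunction.BoundedBelow {K : Type} [Field K] {n : ℕ} {F : Fin n → Curve K}
    (m : PointFunction F) : Prop :=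
  ∃ B : ℝ, ∀ (L : Type) [Field L] [NumberField L] [Algebra K L] (x : Fin n → L)
    (y : ∀ i, (F i).Coord → L), B ≤ m L x y

/-- The hypersurface `G(x_1, …, x_n) = 0` contains an exceptional set for `X`, `ε` and the points of
degree at most `r` over `K`: there is `C` such that
`∑_i κ_i h(x_i) + m(P) ≤ ε h_A(P) + d(P) + C`
for all points `P = (P_1, …, P_n)`, `P_i = (x_i, y_i)`, of `X` with `[K(P) : K] ≤ r` and
`G(P) ≠ 0` (and `x_i ≠ 0, 1, ∞`, or `x_i ≠ ∞`, as in `Curve.Lies`). -/
def Exceptional {K : Type} [Field K] [NumberField K] {n : ℕ} {F : Fin n → Curve K}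
    (m : PointFunction F) (r : ℕ) (ε : ℝ) (G : MvPolynomial (Fin n) K) : Prop :=
  ∃ C : ℝ, ∀ (L : Type) [Field L] [NumberField L] [Algebra K L] (x : Fin n → L)
    (y : ∀ i, (F i).Coord → L),
    IntermediateField.adjoin K (Set.range x ∪ ⋃ i, Set.range (y i)) = ⊤ →
    Module.finrank K L ≤ r → (∀ i, (F i).Lies (x i) (y i)) → MvPolynomial.aeval x G ≠ 0 →
    ∑ i, (F i).kappa * height K (x i) + m L x y ≤
      ε * ∑ i, height K (x i) + logDisc K L + C

open Pool.Agent.H431.OC Pool.Agent.H431.MT Pool.Agent.H431.LF Pool.Agent.Q290.NF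

/-- the stage of a curve -/
noncomputable def stage {K : Type} [Field K] (P : Curve K) (k : Type) [Field k] [Algebra K k] :
    St k :=
  match P with
  | .hyperelliptic f => Cf (fun _ => 0) (f.map (algebraMap K k))
  | .cover c => Pool.Agent.H431.EC.Cs K c.B k

theorem reg_stage {K : Type} [Field K] (P : Curve K) (k : Type) [Field k] [Algebra K k] :
    Reg (stage P k) := by
  cases P with
  | hyperelliptic f =>
    exact reg_Cf (fun _ _ => rfl) (fun _ => le_rfl) (fun _ _ _ => le_rfl) _
  | cover c => exact Pool.Agent.H431.EC.reg_Cs k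

theorem hex_stage {K : Type} [Field K] [NumberField K] {P : Curve K} (hP : P.Valid) {ε ω : ℝ}
    (hω : ω = 3 / 4 - 16 * ε ∨ ∃ j : ℕ, ω = 1 - 3 / (4 * 2 ^ j) - 2 ^ (j + 3) * ε)
    (hε : ε ≤ 3 / 64) (k : Type) [Field k] [NumberField k] [Algebra K k] :
    ∃ (F : Type) (_ : Field F) (_ : NumberField F) (_ : Algebra k F) (_ : Algebra K F)
      (_ : IsScalarTower K k F), Go F (T0 F) (P.weight ω ε) (stage P F) (P.kappa - ε) := by
  cases P with
  | hyperelliptic f =>
    obtain ⟨hf, h5⟩ := hP
    have hf' : Squarefree (f.map (algebraMap K k)) :=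
      ((PerfectField.separable_iff_squarefree.2 hf).map (f := algebraMap K k)).squarefree
    have h5' : 5 ≤ (f.map (algebraMap K k)).natDegree := by rwa [Polynomial.natDegree_map]
    have key : ∃ (F : Type) (_ : Field F) (_ : NumberField F) (_ : Algebra k F),
        Go F (T0 F) ω (Cf (fun _ => 0) ((f.map (algebraMap K k)).map (algebraMap k F)))
        (((((f.map (algebraMap K k)).natDegree - 1) / 2 : ℕ) : ℝ) - 1 - ε) := by
      rcases hω with rfl | ⟨j, rfl⟩
      · exact exists_zero (k := k) hf' h5' hε
      · exact Pool.Agent.H431.EC.exists_zero_sharp (k := k) hf' h5' hε j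
    obtain ⟨F, i1, i2, i3, h⟩ := key
    let _ : Algebra K F := ((algebraMap k F).comp (algebraMap K k)).toAlgebra
    have hst : IsScalarTower K k F := IsScalarTower.of_algebraMap_eq fun _ => rfl
    refine ⟨F, i1, i2, i3, inferInstance, hst, ?_⟩
    rw [Polynomial.natDegree_map, Polynomial.map_map] at h
    exact h
  | cover c =>
    exact ⟨k, inferInstance, inferInstance, Algebra.id k, inferInstance, inferInstance,
      Pool.Agent.H431.EC.go_Cs hP (c.κ - ε)⟩

theorem hup_stage {K : Type} [Field K] {P : Curve K} {κt κ : ℝ} (k F : Type) [Field k]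
    [NumberField k] [Field F] [NumberField F] [Algebra K k] [Algebra K F] [Algebra k F]
    [IsScalarTower K k F] (h : Go k (T0 k) κt (stage P k) κ) :
    Go F (T0 F) κt (stage P F) κ := by
  cases P with
  | hyperelliptic f =>
    have h' : Go k (T0 k) κt (Cf (fun _ => 0) (f.map (algebraMap K k))) κ := h
    have h1 := up_Cf (F := F) h'
    rw [Polynomial.map_map, ← IsScalarTower.algebraMap_eq] at h1
    exact h1
  | cover c => exact Pool.Agent.H431.EC.up_Cs h

theorem pt_stage {K : Type} [Field K] {P : Curve K} (k E : Type) [Field k] [Algebra K k] [Field E]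
    [NumberField E] [Algebra k E] [Algebra K E] [IsScalarTower K k E] {b x : E}
    (h : (stage P k).pt E b x) : ∃ y : P.Coord → E, P.Lies x y := by
  cases P with
  | hyperelliptic f =>
    obtain ⟨y, hy⟩ := h
    rw [Polynomial.aeval_map_algebraMap] at hy
    exact ⟨fun _ => y, hy⟩
  | cover c =>
    obtain ⟨h0, h1, χ, hχ⟩ := h
    refine ⟨χ, h0, h1, χ, fun p => ?_, fun _ => rfl⟩
    rw [hχ, ← IsScalarTower.algebraMap_eq]
    rfl

theorem hom_sub {R L E : Type} [CommRing R] [Field L] [Field E] (i : L →+* E) (y : R → L)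
    (χ : R →+* E) (h : ∀ z, i (y z) = χ z) : ∃ χ' : R →+* L, ∀ z, y z = χ' z :=
  ⟨{ toFun := y
     map_one' := i.injective (by rw [h, map_one, map_one])
     map_mul' := fun a c => i.injective (by rw [h, map_mul, map_mul, h, h])
     map_zero' := i.injective (by rw [h, map_zero, map_zero])
     map_add' := fun a c => i.injective (by rw [h, map_add, map_add, h, h]) }, fun _ => rfl⟩

theorem lies_sub {K : Type} [Field K] {P : Curve K} {L E : Type} [Field L] [Field E] [Algebra K L]
    [Algebra K E] [Algebra L E] [IsScalarTower K L E] {x : L} {y : P.Coord → L}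
    (h : P.Lies (algebraMap L E x) (fun j => algebraMap L E (y j))) : P.Lies x y := by
  have inj := (algebraMap L E).injective
  cases P with
  | hyperelliptic f =>
    have h' : algebraMap L E (y ()) ^ 2 = Polynomial.aeval (algebraMap L E x) f := h
    show y () ^ 2 = Polynomial.aeval x f
    apply inj
    rw [map_pow, h', Polynomial.aeval_algebraMap_apply]
  | cover c =>
    obtain ⟨h0, h1, χ, h2, h3⟩ := h
    obtain ⟨χ', hχ'⟩ := hom_sub (algebraMap L E) (R := c.B) y χ h3
    refine ⟨fun h => h0 (by rw [h, map_zero]), fun h => h1 (by rw [h, map_one]), χ',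
      fun p => ?_, hχ'⟩
    apply inj
    rw [← hχ']
    refine (h3 _).trans ?_
    rw [h2, Polynomial.aeval_algebraMap_apply]

/-- the bound for `ε` -/
theorem eps_le {ε ω : ℝ} (hω0 : 0 ≤ ω)
    (hω : ω = 3 / 4 - 16 * ε ∨ ∃ j : ℕ, ω = 1 - 3 / (4 * 2 ^ j) - 2 ^ (j + 3) * ε) :
    ε ≤ 3 / 64 := by
  rcases hω with h | ⟨j, h⟩
  · linarith
  · obtain ⟨p, hp⟩ : ∃ p : ℝ, p = 2 ^ j := ⟨_, rfl⟩
    have hp1 : 1 ≤ p := by
      rw [hp]
      exact one_le_pow₀ (by norm_num)
    have e1 : (2 : ℝ) ^ (j + 3) = 8 * p := by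
      rw [hp]
      ring
    rw [e1, ← hp] at h
    by_contra hc
    rw [not_le] at hc
    have h1 : 8 * p * (3 / 64) < 8 * p * ε := mul_lt_mul_of_pos_left hc (by linarith)
    have h2 : 8 * p * ε ≤ 1 - 3 / (4 * p) := by linarith
    have h3 : p * (8 * p * (3 / 64)) < p * (1 - 3 / (4 * p)) :=
      mul_lt_mul_of_pos_left (by linarith) (by linarith)
    have h4 : p * (1 - 3 / (4 * p)) = p - 3 / 4 := by
      field_simp
    rw [h4] at h3
    nlinarith [sq_nonneg (p - 4 / 3)]

/-- **Products with a hyperelliptic curve: the set `Z` depends on the degree of the points.** Let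
at least one of the curves `C_i` be hyperelliptic, and let `ω = 3 / 4 - 16 ε` or
`ω = 1 - 3 / 2 ^ (j + 2) - 2 ^ (j + 3) ε` for some `j`. Let `w_i ≥ 0` and `∑_i w_i > 1`, where
`w_i = ω` for the hyperelliptic curves and `w_i = κ_i - ε` for the other curves. (For `n ≥ 2` and
curves of genus at least `2` this is true for all small `ε`: one takes `j` large, and then `ε`
small.) For each `d` there is `R` such that for `r ≥ R` no hypersurface `G(x_1, …, x_n) = 0` with
`G ≠ 0` of degree at most `d` in each variable contains an exceptional set for the points of degree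
at most `r`, for any function `m` that is bounded below. For an ideal sheaf `I` one takes
`m = ∑_{v ∈ S} λ_I - ∑_{v ∈ S} λ_{I^-}`, which is bounded below as `I ⊂ I^-`. -/
theorem result (K : Type) [Field K] [NumberField K] (n : ℕ) (F : Fin n → Curve K)
    (hF : ∀ i, (F i).Valid) (h0 : ∃ i, (F i).IsHyperelliptic) (ε ω : ℝ)
    (hω : ω = 3 / 4 - 16 * ε ∨ ∃ j : ℕ, ω = 1 - 3 / (4 * 2 ^ j) - 2 ^ (j + 3) * ε)
    (hw : ∀ i, 0 ≤ (F i).weight ω ε) (h1 : 1 < ∑ i, (F i).weight ω ε) (d : ℕ) :
    ∃ R : ℕ, ∀ (m : PointFunction F), m.BoundedBelow → ∀ (r : ℕ) (G : MvPolynomial (Fin n) K),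
      G ≠ 0 → (∀ i, G.degreeOf i ≤ d) → Exceptional m r ε G → r < R := by
  classical
  have hω0 : 0 ≤ ω := by
    obtain ⟨i, hi⟩ := h0
    have h := hw i
    cases hFi : F i with
    | hyperelliptic f =>
      rw [hFi] at h
      exact h
    | cover c =>
      rw [hFi] at hi
      exact hi.elim
  have hε1 : ε ≤ 3 / 64 := eps_le hω0 hω
  obtain ⟨r0, H0⟩ := Pool.Agent.H431.EC.main_KV (K := K) (fun i => stage (F i))
    (κt := fun i => (F i).weight ω ε)
    (κ := fun i => (F i).kappa - ε) hw h1 (fun i k _ _ => reg_stage (F i) k)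
    (fun i k _ _ _ => hex_stage (hF i) hω hε1 k)
    (fun i k F' _ _ _ _ _ _ _ _ h => hup_stage k F' h) d
  refine ⟨r0 + 1, fun m hm r G hG hdeg hE => ?_⟩
  by_contra hr
  rw [not_lt] at hr
  obtain ⟨B, hB⟩ := hm
  obtain ⟨C, H⟩ := hE
  obtain ⟨k, i1, i2, i3, E, j1, j2, j3, j4, j5, b, x, hb, hdegE, hpt, hGx, hineq⟩ :=
    H0 G hG hdeg (|C - B - DD K| + 1)
  choose y hy using fun i => pt_stage (P := F i) k E (hpt i)
  obtain ⟨L, Q, hQ, hQtop⟩ := adjoin_top' (K := K)
    (Sum.elim x fun z : Σ i, (F i).Coord => y z.1 z.2)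
  have fKE : Module.Finite K E := Module.Finite.of_restrictScalars_finite ℚ K E
  have nL : NumberField L := NumberField.of_module_finite K L
  have hKL : Module.finrank K L * Module.finrank L E = Module.finrank K E :=
    Module.finrank_mul_finrank K L E
  have hLE0 : 0 < Module.finrank L E := Module.finrank_pos
  have hKL0 : 0 < Module.finrank K L := Module.finrank_pos
  have hx : ∀ i, algebraMap L E (Q (Sum.inl i)) = x i := fun i => hQ (Sum.inl i)
  have hy' : ∀ i j, algebraMap L E (Q (Sum.inr ⟨i, j⟩)) = y i j := fun i j => hQ (Sum.inr ⟨i, j⟩)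
  have hLies : ∀ i, (F i).Lies (Q (Sum.inl i)) (fun j => Q (Sum.inr ⟨i, j⟩)) := by
    intro i
    apply lies_sub (E := E)
    have e1 : (fun j => algebraMap L E (Q (Sum.inr ⟨i, j⟩))) = y i := funext fun j => hy' i j
    rw [hx, e1]
    exact hy i
  have hrange : Set.range Q = Set.range (fun i => Q (Sum.inl i)) ∪
      ⋃ i, Set.range fun j => Q (Sum.inr ⟨i, j⟩) := by
    ext z
    constructor
    · rintro ⟨i | ⟨i, j⟩, rfl⟩
      · exact Or.inl ⟨i, rfl⟩
      · exact Or.inr (Set.mem_iUnion.2 ⟨i, j, rfl⟩)
    · rintro (⟨i, rfl⟩ | h)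
      · exact ⟨_, rfl⟩
      · obtain ⟨i, j, rfl⟩ := Set.mem_iUnion.1 h
        exact ⟨_, rfl⟩
  have hGL : MvPolynomial.aeval (fun i => Q (Sum.inl i)) G ≠ 0 := by
    intro h
    apply hGx
    have h1 : algebraMap L E (MvPolynomial.aeval (fun i => Q (Sum.inl i)) G) = 0 := by
      rw [h, map_zero]
    have e0 : (⇑(algebraMap L E) ∘ fun i => Q (Sum.inl i)) = x := funext hx
    rw [← h1, ← MvPolynomial.aeval_algebraMap_apply, e0]
  have hLr : Module.finrank K L ≤ r := by
    have h1 : Module.finrank K L ≤ Module.finrank K E := by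
      rw [← hKL]
      exact Nat.le_mul_of_pos_right _ hLE0
    omega
  have h := H L (fun i => Q (Sum.inl i)) (fun i j => Q (Sum.inr ⟨i, j⟩))
    (by rw [← hrange]; exact hQtop) hLr hLies hGL
  have hmB := hB L (fun i => Q (Sum.inl i)) (fun i j => Q (Sum.inr ⟨i, j⟩))
  obtain ⟨z, hz⟩ : ∃ z : Fin n → L, z = fun i => Q (Sum.inl i) := ⟨_, rfl⟩
  have hineq' : Module.finrank ℚ E * (|C - B - DD K| + 1) + DD E + sm (bw b fun _ => 0) +
      ∑ i : Fin n, sm (ow b ((stage (F i) k).wt E (x i))) ≤
        ∑ i, ((F i).kappa - ε) * Height.logHeight₁ (algebraMap L E (z i)) := by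
    refine hineq.trans (le_of_eq ?_)
    refine Finset.sum_congr rfl fun i _ => ?_
    rw [hz, hx]
  have hd := desc (L := L) hb (fun i => (stage (F i) k).wt E (x i))
    (fun i => (reg_stage (F i) k).supp E _) (fun i w => (reg_stage (F i) k).nonneg E _ w) ∅
    (by simp) (fun i => (F i).kappa - ε) z hineq'
  rw [Finset.sum_empty, add_zero] at hd
  have hKL1 : (0 : ℝ) < Module.finrank K L := by exact_mod_cast hKL0
  -- the inequality, multiplied by the degree
  have h' : ∑ i, ((F i).kappa - ε) * Height.logHeight₁ (z i) ≤ DD L +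
      Module.finrank K L * (C - B - DD K) := by
    have h2 : ∑ i, (F i).kappa * height K (z i) ≤
        ε * ∑ i, height K (z i) + logDisc K L + (C - B) := by
      rw [hz]
      linarith
    have h3 := mul_le_mul_of_nonneg_right h2 hKL1.le
    unfold logDisc height at h3
    have e1 : (∑ i, (F i).kappa * (Height.logHeight₁ (z i) /
        (Module.finrank K L : ℝ))) * Module.finrank K L =
        ∑ i, (F i).kappa * Height.logHeight₁ (z i) := by
      rw [Finset.sum_mul]
      refine Finset.sum_congr rfl fun i _ => ?_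
      field_simp
    have e3 : ∑ i, ((F i).kappa - ε) * Height.logHeight₁ (z i) =
        ∑ i, (F i).kappa * Height.logHeight₁ (z i) -
          ε * ∑ i, Height.logHeight₁ (z i) := by
      rw [Finset.mul_sum, ← Finset.sum_sub_distrib]
      refine Finset.sum_congr rfl fun i _ => ?_
      ring
    have e2 : (ε * (∑ i, Height.logHeight₁ (z i) / (Module.finrank K L : ℝ)) +
        (Real.log |(NumberField.discr L : ℝ)| / Module.finrank K L -
          Real.log |(NumberField.discr K : ℝ)|) + (C - B)) * Module.finrank K L =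
        ε * ∑ i, Height.logHeight₁ (z i) + Real.log |(NumberField.discr L : ℝ)| +
          Module.finrank K L * (C - B - Real.log |(NumberField.discr K : ℝ)|) := by
      rw [← Finset.sum_div]
      field_simp
      ring
    rw [e1, e2] at h3
    rw [e3]
    unfold DD
    linarith
  have hQL : (Module.finrank K L : ℝ) ≤ Module.finrank ℚ L := by
    have h1 : Module.finrank ℚ K * Module.finrank K L = Module.finrank ℚ L :=
      Module.finrank_mul_finrank ℚ K L
    have h2 : 0 < Module.finrank ℚ K := Module.finrank_pos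
    exact_mod_cast h1 ▸ Nat.le_mul_of_pos_left _ h2
  have h5' : (Module.finrank K L : ℝ) * (C - B - DD K) ≤
      Module.finrank K L * |C - B - DD K| :=
    mul_le_mul_of_nonneg_left (le_abs_self _) hKL1.le
  have h6 : (Module.finrank K L : ℝ) * (|C - B - DD K| + 1) ≤
      Module.finrank ℚ L * (|C - B - DD K| + 1) :=
    mul_le_mul_of_nonneg_right hQL (by positivity)
  linarith

end Pool.Agent.Results.MP_8865d3_nt.ProductsWithHyperellipticCurve
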