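import Mathlib
import Pool.Agent.H432.MI.Low

/-!
# The inequality with a multiplier ideal correction on rational curves: the exact exponent

`X ⊂ ℙ^(M - 1)` is a smooth projective variety over a number field `k` and `𝓘_1, …, 𝓘_q` are arbitrary
ideal sheaves on `X`, where `𝓘_i` is given by forms `F i j` of degree `δ i`; `r_1, …, r_q` are real
numbers. (In the problem `q = 2`, `𝓘_1 = 𝓘`, `𝓘_2 = 𝓘⁻`, `r_1 = 1`, `r_2 = -1`. The number of equations of
the ideals may be assumed to be the same, one can repeat equations.)

Let `φ : ℙ^1 → X` be a rational curve of degree `d ≥ 1` over a number field `L`, not contained in the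
zero set of one of the ideals, and `κ` the degree of the canonical class of `X` on `φ`. For a point `z`
of `ℙ^1` let `g(z) = ∑ r_i ord_z(φ^* 𝓘_i)`. The theorem decides for which real `α` the inequality

`h_K(x) + ∑ i, r_i m_{S, 𝓘_i}(x) ≤ (α + ε) h(x) + C`

holds for all number fields `K` over `L`, all finite sets `S` of places of `K`, all `ε > 0` and all
`x ∈ φ(ℙ^1(K))` outside of the zero sets of the ideals: if and only if `κ + g(z) + g(y) ≤ α d` for all
distinct points `z`, `y` of `ℙ^1` over all number fields. For one field `K` the inequality over `K`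
implies `κ + g(z) + g(y) ≤ α d` for all distinct `z, y ∈ ℙ^1(K)`. The discriminant term of the problem is
bounded for the points over a fixed field `K`. So the inequality of the problem holds on the curve over
all fields if and only if `κ + g(z) + g(y) ≤ 0` for all `z ≠ y`, and all other rational curves are
contained in the exceptional sets.

The upper bound uses Roth's theorem (several places and points with real weights, the two largest of
which count), the lower bound the points with the parameters `z + 2 ^ n y`.
-/

set_option autoImplicit false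

namespace Pool.Agent.Results.MP_8865d3_nt.RationalCurvesAllIdeals

open NumberField IsDedekindDomain MvPolynomial

/-- The tangent space at `z` of the affine cone over the variety with the equations `G i`: the vectors
`v` with `∑ j, (∂_j G i)(z) v_j = 0` for all `i`. -/
noncomputable def tangentSpace {k Ω : Type} [Field k] [Field Ω] [Algebra k Ω] {M g : ℕ}
    (G : Fin g → MvPolynomial (Fin M) k) (z : Fin M → Ω) : Submodule Ω (Fin M → Ω) :=
  ⨅ i, LinearMap.ker (∑ j, aeval z (pderiv j (G i)) • LinearMap.proj (R := Ω) (φ := fun _ => Ω) j)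

/-- The variety with the equations `G i` is smooth of dimension `n`: at all points over all extension
fields the tangent space of the cone has dimension `n + 1`. -/
def IsSmooth {k : Type} [Field k] {M g : ℕ} (n : ℕ) (G : Fin g → MvPolynomial (Fin M) k) : Prop :=
  ∀ (Ω : Type) [Field Ω] [Algebra k Ω] (z : Fin M → Ω), z ≠ 0 → (∀ i, aeval z (G i) = 0) →
    Module.finrank Ω (tangentSpace G z) = n + 1

/-- The absolute logarithmic height of a vector over `L`. -/
noncomputable def height {L : Type} [Field L] [NumberField L] {ι : Type} [Finite ι]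
    (x : ι → L) : ℝ := Height.logHeight x / Module.finrank ℚ L

/-- The point with the parameter `z = (z_0 : z_1)` on the curve with the coefficients `c`: its
coordinates are the binary forms `∑ m, c l m z_0 ^ m z_1 ^ (d - m)` of degree `d`. -/
def curvePoint {ι R : Type} [CommRing R] {d : ℕ} (c : ι → Fin (d + 1) → R) (z : Fin 2 → R) :
    ι → R := fun l => ∑ m : Fin (d + 1), c l m * (z 0 ^ (m : ℕ) * z 1 ^ (d - m))

/-- The binary forms with the coefficients `c` have no common zero and define a morphism from the
projective line to the variety with the equations `G i`. -/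
def IsRationalCurve {k L : Type} [Field k] [Field L] [Algebra k L] {M g d : ℕ}
    (G : Fin g → MvPolynomial (Fin M) k) (c : Fin M → Fin (d + 1) → L) : Prop :=
  ∀ (Ω : Type) [Field Ω] [Algebra k Ω] [Algebra L Ω] [IsScalarTower k L Ω] (z : Fin 2 → Ω), z ≠ 0 →
    curvePoint (fun l m => algebraMap L Ω (c l m)) z ≠ 0 ∧
    ∀ i, aeval (curvePoint (fun l m => algebraMap L Ω (c l m)) z) (G i) = 0

/-- The columns of `A` are a basis of the tangent space of the cone at `x` (for a smooth variety of
dimension `n`). -/
def IsTangentBasis {k L : Type} [Field k] [Field L] [Algebra k L] {M g n : ℕ}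
    (G : Fin g → MvPolynomial (Fin M) k) (x : Fin M → L) (A : Matrix (Fin M) (Fin (n + 1)) L) :
    Prop :=
  LinearIndependent L A.col ∧ ∀ c, A.col c ∈ tangentSpace G x

/-- The binary forms with the coefficients `b`, of degree `m`, give the composition of the curve `φ`
with the coefficients `c` and the Gauss map: at all points `z` over all extension fields their values
are the maximal minors of a basis of the tangent space of the cone at `φ(z)`. (In particular they have
no common zero, and `m` is the degree of the class `K + (n + 1) H` on the curve.) -/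
def IsGaussMap {k L : Type} [Field k] [Field L] [Algebra k L] {M g n d m : ℕ}
    (G : Fin g → MvPolynomial (Fin M) k) (c : Fin M → Fin (d + 1) → L)
    (b : (Fin (n + 1) → Fin M) → Fin (m + 1) → L) : Prop :=
  ∀ (Ω : Type) [Field Ω] [Algebra k Ω] [Algebra L Ω] [IsScalarTower k L Ω] (z : Fin 2 → Ω), z ≠ 0 →
    ∃ A : Matrix (Fin M) (Fin (n + 1)) Ω,
      IsTangentBasis G (curvePoint (fun l m => algebraMap L Ω (c l m)) z) A ∧
      curvePoint (fun J m => algebraMap L Ω (b J m)) z = fun J => (A.submatrix J id).det

/-- The order of contact of the curve with the coefficients `c` with the ideal given by the forms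
`F j` at the point with the parameter `z` is `a`, that is `a = ord_z (φ^* 𝓘)`: all `F j (φ(z + T y))`
are divisible by `T ^ a`, and not all of them by `T ^ (a + 1)`. -/
def IsContactOrder {k Ω : Type} [Field k] [Field Ω] [Algebra k Ω] {M w d : ℕ}
    (F : Fin w → MvPolynomial (Fin M) k) (c : Fin M → Fin (d + 1) → Ω) (z : Fin 2 → Ω)
    (a : ℕ) : Prop :=
  (∀ j (y : Fin 2 → Ω), Polynomial.X ^ a ∣ aeval (curvePoint (fun l m => Polynomial.C (c l m))
      (fun t => Polynomial.C (z t) + Polynomial.X * Polynomial.C (y t))) (F j)) ∧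
    ∃ j, ∃ y : Fin 2 → Ω, ¬ Polynomial.X ^ (a + 1) ∣
      aeval (curvePoint (fun l m => Polynomial.C (c l m))
        (fun t => Polynomial.C (z t) + Polynomial.X * Polynomial.C (y t))) (F j)

/-- The height `h_K(x)` for the canonical class `K` of the variety: the Gauss map `γ` sends a point to
its embedded tangent space, `γ^* O(1) = K + (n + 1) H` for the hyperplane class `H`; `h_K(x)` is the
height of the vector of the maximal minors of a basis `A` of the tangent space minus
`(n + 1) h(x)`. -/
noncomputable def canonicalHeight {L : Type} [Field L] [NumberField L] {M n : ℕ} (x : Fin M → L)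
    (A : Matrix (Fin M) (Fin (n + 1)) L) : ℝ :=
  height (fun J : Fin (n + 1) → Fin M => (A.submatrix J id).det) - (n + 1) * height x

/-- The local height `λ_𝓘(x) = log ((max_l |x_l|) ^ δ / max_j |F j (x)|)` of the ideal given by the
forms `F j` of degree `δ`, for an absolute value of `L`. -/
noncomputable def weil {k L : Type} [Field k] [Field L] [Algebra k L] {M w : ℕ}
    (f : AbsoluteValue L ℝ) (F : Fin w → MvPolynomial (Fin M) k) (δ : ℕ)
    (x : Fin M → L) : ℝ :=
  Real.log ((⨆ l, f (x l)) ^ δ / ⨆ j, f (aeval x (F j)))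

/-- The proximity function `m_{S, 𝓘}(x)`, where `S` consists of the archimedean places of `L` and the
primes in `S`: the sum of the local heights over the infinite places `v` (with the factor `[L_v : ℝ]`)
and over the primes in `S` (with the absolute value `N(v) ^ (- ord_v)`), divided by `[L : ℚ]`. -/
noncomputable def proximity {k L : Type} [Field k] [Field L] [NumberField L] [Algebra k L]
    {M w : ℕ} (S : Finset (HeightOneSpectrum (𝓞 L)))
    (F : Fin w → MvPolynomial (Fin M) k) (δ : ℕ) (x : Fin M → L) : ℝ :=
  (∑ v : InfinitePlace L, (v.mult : ℝ) * weil v.1 F δ x +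
    ∑ v ∈ S, weil (FinitePlace.mk v).1 F δ x) / Module.finrank ℚ L

/-- The inequality `∑ i, r_i m_{S, 𝓘_i}(x) + h_K(x) ≤ (α + ε) h(x) + C` on the curve with the
coefficients `c` for its points over `K`: for all finite sets `S` of primes of `K` (the infinite places
are always added) and all `ε > 0` there is `C` such that it holds for all `x = φ(s)`, `s ∈ ℙ^1(K)`,
outside of the zero sets of the ideals. -/
def InequalityOver {k K : Type} [Field k] [Field K] [NumberField K] [Algebra k K] {M g q w d : ℕ}
    (n : ℕ) (G : Fin g → MvPolynomial (Fin M) k) (F : Fin q → Fin w → MvPolynomial (Fin M) k)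
    (δ : Fin q → ℕ) (r : Fin q → ℝ) (c : Fin M → Fin (d + 1) → K) (α : ℝ) : Prop :=
  ∀ (S : Finset (HeightOneSpectrum (𝓞 K))) (ε : ℝ), 0 < ε → ∃ C : ℝ,
    ∀ s : Fin 2 → K, s ≠ 0 → (∀ i, ∃ j, aeval (curvePoint c s) (F i j) ≠ 0) →
    ∀ A : Matrix (Fin M) (Fin (n + 1)) K, IsTangentBasis G (curvePoint c s) A →
    ∑ i, r i * proximity S (F i) (δ i) (curvePoint c s) + canonicalHeight (curvePoint c s) A ≤
      (α + ε) * height (curvePoint c s) + C

/-- `κ + g(z) + g(y) ≤ α d` for all distinct points `z`, `y` in `ℙ^1(K)`, where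
`g(z) = ∑ i, r_i ord_z (φ^* 𝓘_i)`. -/
def ContactBound {k K : Type} [Field k] [Field K] [Algebra k K] {M q w d : ℕ}
    (F : Fin q → Fin w → MvPolynomial (Fin M) k) (r : Fin q → ℝ) (c : Fin M → Fin (d + 1) → K)
    (κ α : ℝ) : Prop :=
  ∀ z y : Fin 2 → K, z 0 * y 1 ≠ z 1 * y 0 → ∀ a a' : Fin q → ℕ,
    (∀ i, IsContactOrder (F i) c z (a i)) → (∀ i, IsContactOrder (F i) c y (a' i)) →
    κ + ∑ i, r i * a i + ∑ i, r i * a' i ≤ α * d

theorem mem_tangentSpace {k Ω : Type} [Field k] [Field Ω] [Algebra k Ω] {M g : ℕ}
    {G : Fin g → MvPolynomial (Fin M) k} {z v : Fin M → Ω} :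
    v ∈ tangentSpace G z ↔ ∀ i, ∑ j, aeval z (pderiv j (G i)) * v j = 0 := by
  unfold tangentSpace
  rw [Submodule.mem_iInf]
  refine forall_congr' fun i => ?_
  rw [LinearMap.mem_ker, LinearMap.sum_apply]
  rfl

theorem tangentSpace_eq {k Ω : Type} [Field k] [Field Ω] [Algebra k Ω] {M g : ℕ}
    (G : Fin g → MvPolynomial (Fin M) k) (z : Fin M → Ω) :
    tangentSpace G z = Pool.Agent.N750.TS G z := by
  ext v
  rw [mem_tangentSpace, Pool.Agent.N750.mem_TS]

/-- the two forms of the left-hand side -/
theorem conv {k K : Type} [Field k] [NumberField k] [Field K] [NumberField K] [Algebra k K]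
    {M q w n' : ℕ} (S : Finset (HeightOneSpectrum (𝓞 K)))
    (F : Fin q → Fin w → MvPolynomial (Fin M) k) (δ : Fin q → ℕ) (r : Fin q → ℝ) (x : Fin M → K)
    (hx0 : x ≠ 0)
    (hxF : ∀ i, ∃ j, aeval x (F i j) ≠ 0) (A : Matrix (Fin M) (Fin (n' + 1 + 1)) K) :
    Module.finrank ℚ K * (∑ i, r i * proximity S (F i) (δ i) x + canonicalHeight x A) =
      Pool.Agent.H432.MI.W ((Finset.univ : Finset (InfinitePlace K)).disjSum S) F δ r x +
        Height.logHeight (Pool.Agent.N750.mv (fun l c => A l c)) -
          (n' + 2) * Height.logHeight x := by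
  have hd : (0 : ℝ) < Module.finrank ℚ K := by exact_mod_cast Module.finrank_pos
  have hht : ∀ {ι : Type} [Finite ι] (y : ι → K),
      Height.logHeight y = Module.finrank ℚ K * height y := by
    intro ι _ y
    unfold height
    field_simp
  have hweil : ∀ (f : AbsoluteValue K ℝ) (i : Fin q),
      ((δ i : ℝ) * Real.log (Pool.Agent.W180.OP.nrm f x) - Real.log (Pool.Agent.W180.OP.nrm f
        (fun j => aeval x (F i j)))) = weil f (F i) (δ i) x := by
    intro f i
    unfold weil
    have e1 : (⨆ l, f (x l)) = Pool.Agent.W180.OP.nrm f x := rfl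
    have e2 : (⨆ j, f (aeval x (F i j))) =
      Pool.Agent.W180.OP.nrm f (fun j => aeval x (F i j)) := rfl
    obtain ⟨j0, hj0⟩ := hxF i
    have e3 : (fun j => aeval x (F i j)) ≠ 0 := fun h => hj0 (congrFun h j0)
    rw [e1, e2, Real.log_div (pow_ne_zero _ (Pool.Agent.W180.OP.nrm_pos f hx0).ne')
      (Pool.Agent.W180.OP.nrm_pos f e3).ne', Real.log_pow]
  have hprx : ∀ i, Pool.Agent.H432.RC.prx ((Finset.univ : Finset (InfinitePlace K)).disjSum S)
      (fun _ : Fin 1 => F i) (fun _ => δ i) x = Module.finrank ℚ K *
        proximity S (F i) (δ i) x := by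
    intro i
    unfold Pool.Agent.H432.RC.prx proximity
    rw [Finset.sum_disjSum]
    simp only [Finset.univ_unique, Finset.sum_singleton, hweil]
    have e4 : ∀ v : HeightOneSpectrum (𝓞 K),
        Pool.Agent.W180.OP.wt (Sum.inr v : Pool.Agent.W180.OP.Pl K) = 1 := fun _ => rfl
    simp only [e4, one_mul]
    field_simp
    rfl
  have hcan : Module.finrank ℚ K * canonicalHeight x A =
      Height.logHeight (Pool.Agent.N750.mv (fun l c => A l c)) -
        (n' + 2) * Height.logHeight x := by
    have e1 : Pool.Agent.N750.mv (fun l c => A l c) =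
        fun J : Fin (n' + 1 + 1) → Fin M => (A.submatrix J id).det := rfl
    unfold canonicalHeight
    rw [e1, hht, hht]
    push_cast
    ring
  rw [mul_add, hcan, Pool.Agent.H432.MI.W_eq, Finset.mul_sum]
  have h5 : ∑ i, (Module.finrank ℚ K : ℝ) * (r i * proximity S (F i) (δ i) x) =
      ∑ i, r i * Pool.Agent.H432.RC.prx ((Finset.univ : Finset (InfinitePlace K)).disjSum S)
      (fun _ : Fin 1 => F i) (fun _ => δ i) x :=
    Finset.sum_congr rfl fun i _ => by
      rw [hprx i]
      ring
  rw [h5]
  ring

/-- **The exact exponent on a rational curve, for arbitrary ideals with real coefficients.** Let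
`X ⊂ ℙ^(M - 1)` be a smooth projective variety over the number field `k` of dimension `n ≥ 1` with the
equations `G i`, let `𝓘_i`, `i < q`, be the ideals given by the forms `F i j` of degree `δ i`, and `r_i`
real numbers. Let `φ` be a rational curve on `X` over a number field `L` of degree `d ≥ 1`, not contained
in the zero set of one of the ideals. The composition with the Gauss map is given by binary forms; let
`m` be their degree, so that `κ = m - (n + 1) d` is the degree of the canonical class on `φ`. Let `α` be
a real number.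

(1) For every number field `K` over `L`: if for all finite sets `S` of places and all `ε > 0` there is
`C` such that `∑ i, r_i m_{S, 𝓘_i}(x) + h_K(x) ≤ (α + ε) h(x) + C` for all points `x` in `φ(ℙ^1(K))`
outside of the zero sets of the ideals, then `κ + g(z) + g(y) ≤ α d` for all distinct `z`, `y` in
`ℙ^1(K)`, where `g(z) = ∑ i, r_i ord_z (φ^* 𝓘_i)`.

(2) If `κ + g(z) + g(y) ≤ α d` for all number fields `K` over `L` and all distinct `z`, `y` in `ℙ^1(K)`,
then for all number fields `K` over `L`, all `S` and all `ε > 0` there is `C` such that the inequality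
holds. -/
theorem result (k : Type) [Field k] [NumberField k] (n M g q w : ℕ) (hn : 1 ≤ n)
    (G : Fin g → MvPolynomial (Fin M) k) (e : Fin g → ℕ)
    (hG : ∀ i, (G i).IsHomogeneous (e i)) (hX : IsSmooth n G)
    (F : Fin q → Fin w → MvPolynomial (Fin M) k) (δ : Fin q → ℕ)
    (hF : ∀ i j, (F i j).IsHomogeneous (δ i)) (r : Fin q → ℝ)
    (L : Type) [Field L] [NumberField L] [Algebra k L] (d : ℕ) (c : Fin M → Fin (d + 1) → L)
    (hd : 1 ≤ d) (hc : IsRationalCurve G c)
    (hcF : ∃ z : Fin 2 → L, z ≠ 0 ∧ ∀ i, ∃ j, aeval (curvePoint c z) (F i j) ≠ 0) :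
    (∃ (m : ℕ) (b : (Fin (n + 1) → Fin M) → Fin (m + 1) → L), IsGaussMap G c b) ∧
    ∀ (m : ℕ) (b : (Fin (n + 1) → Fin M) → Fin (m + 1) → L), IsGaussMap G c b → ∀ α : ℝ,
      (∀ (K : Type) [Field K] [NumberField K] [Algebra k K] [Algebra L K] [IsScalarTower k L K],
        InequalityOver n G F δ r (fun l m => algebraMap L K (c l m)) α →
        ContactBound F r (fun l m => algebraMap L K (c l m)) (m - (n + 1) * d) α) ∧
      ((∀ (K : Type) [Field K] [NumberField K] [Algebra k K] [Algebra L K] [IsScalarTower k L K],
        ContactBound F r (fun l m => algebraMap L K (c l m)) (m - (n + 1) * d) α) →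
        ∀ (K : Type) [Field K] [NumberField K] [Algebra k K] [Algebra L K] [IsScalarTower k L K],
        InequalityOver n G F δ r (fun l m => algebraMap L K (c l m)) α) := by
  classical
  obtain ⟨n', rfl⟩ : ∃ n', n = n' + 1 := ⟨n - 1, by omega⟩
  have hsm : Pool.Agent.N750.Sm (n' + 1) G := by
    intro Ω _ _ z hz hzG
    rw [← tangentSpace_eq]
    exact hX Ω z hz hzG
  have hrc : ∀ {L : Type} [Field L] [NumberField L] [Algebra k L] {d : ℕ}
      {c : Fin M → Fin (d + 1) → L}, IsRationalCurve G c → Pool.Agent.H432.TC.RC0 G c := by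
    intro L _ _ _ d c hc
    refine ⟨?_, ?_⟩
    · intro Ω _ _ z hz
      let _ : Algebra k Ω := ((algebraMap L Ω).comp (algebraMap k L)).toAlgebra
      have _ : IsScalarTower k L Ω := IsScalarTower.of_algebraMap_eq fun a => rfl
      exact (hc Ω z hz).1
    · intro Ω _ _ _ _ z i
      by_cases hz : z = 0
      · rw [hz]
        by_cases hd0 : d = 0
        · subst hd0
          have h1 := (hc Ω ![1, 1] (by
            intro h
            have := congrFun h 0
            simp at this)).2 i
          have h2 : Pool.Agent.H432.RC.pc (fun l m => algebraMap L Ω (c l m))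
              (0 : Fin 2 → Ω) = curvePoint (fun l m => algebraMap L Ω (c l m)) ![1, 1] := by
            funext l
            unfold Pool.Agent.H432.RC.pc curvePoint
            simp
          rw [h2]
          exact h1
        · have h2 : Pool.Agent.H432.RC.pc (fun l m => algebraMap L Ω (c l m))
              (0 : Fin 2 → Ω) = fun l => 0 * curvePoint (fun l m => algebraMap L Ω (c l m))
                ![1, 1] l := by
            funext l
            unfold Pool.Agent.H432.RC.pc
            rw [zero_mul]
            refine Finset.sum_eq_zero fun m _ => ?_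
            have h3 : (0 : Ω) ^ (m : ℕ) * (0 : Ω) ^ (d - (m : ℕ)) = 0 := by
              rw [← pow_add]
              have : (m : ℕ) + (d - m) = d := by
                have := m.2
                omega
              rw [this, zero_pow hd0]
            show _ * ((0 : Ω) ^ (m : ℕ) * (0 : Ω) ^ (d - (m : ℕ))) = 0
            rw [h3, mul_zero]
          have h1 := (hc Ω ![1, 1] (by
            intro h
            have := congrFun h 0
            simp at this)).2 i
          rw [h2, Pool.Agent.H432.RC.aeval_hom (hG i), h1, mul_zero]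
      · exact (hc Ω z hz).2 i
  have hgf : ∀ {L : Type} [Field L] [Algebra k L] {d m : ℕ}
      {c : Fin M → Fin (d + 1) → L} {b : (Fin (n' + 1 + 1) → Fin M) → Fin (m + 1) → L},
      IsGaussMap G c b ↔ Pool.Agent.H432.EX.GF G c b := by
    intro L _ _ d m c b
    constructor
    · intro h Ω _ _ _ _ z hz
      obtain ⟨A, hA, hA2⟩ := h Ω z hz
      refine ⟨fun l c => A l c, ⟨hA.1, fun c => ?_⟩, hA2⟩
      rw [← tangentSpace_eq]
      exact hA.2 c
    · intro h Ω _ _ _ _ z hz
      obtain ⟨A, hA, hA2⟩ := h Ω z hz
      refine ⟨Matrix.of A, ⟨hA.1, fun c => ?_⟩, hA2⟩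
      rw [tangentSpace_eq]
      exact hA.2 c
  have hcon : ∀ {Ω : Type} [Field Ω] [Algebra k Ω] {c : Fin M → Fin (d + 1) → Ω}
      {z : Fin 2 → Ω} {a : Fin q → ℕ}, (∀ i, IsContactOrder (F i) c z (a i)) ↔
        Pool.Agent.H432.MI.Con F c z a := by
    intro Ω _ _ c z a
    exact Iff.rfl
  -- the inequality
  have hineq : ∀ (K : Type) [Field K] [NumberField K] [Algebra k K] [Algebra L K]
      [IsScalarTower k L K] (α : ℝ),
      InequalityOver (n' + 1) G F δ r (fun l m => algebraMap L K (c l m)) α ↔
      ∀ (S : Finset (HeightOneSpectrum (𝓞 K))) (ε : ℝ), 0 < ε → ∃ C : ℝ,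
      ∀ s : Fin 2 → K, s ≠ 0 →
      (∀ i, ∃ j, aeval (Pool.Agent.H432.RC.pc (fun l m => algebraMap L K (c l m)) s)
        (F i j) ≠ 0) →
      ∀ A, Pool.Agent.N750.IsTB (p := n' + 2) G
        (Pool.Agent.H432.RC.pc (fun l m => algebraMap L K (c l m)) s) A →
      Pool.Agent.H432.MI.W ((Finset.univ : Finset (InfinitePlace K)).disjSum S) F δ r
        (Pool.Agent.H432.RC.pc (fun l m => algebraMap L K (c l m)) s) +
        Height.logHeight (Pool.Agent.N750.mv A) ≤
        (n' + 2 + α + ε) * Height.logHeight
          (Pool.Agent.H432.RC.pc (fun l m => algebraMap L K (c l m)) s) + C := by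
    intro K _ _ _ _ _ α
    have hd : (0 : ℝ) < Module.finrank ℚ K := by exact_mod_cast Module.finrank_pos
    have hx0 : ∀ (s : Fin 2 → K), s ≠ 0 →
        curvePoint (fun l m => algebraMap L K (c l m)) s ≠ 0 := fun s hs => (hc K s hs).1
    constructor
    · intro h S ε hε
      obtain ⟨C, hC⟩ := h S ε hε
      refine ⟨Module.finrank ℚ K * C, fun s hs hsF A hA => ?_⟩
      have h1 := hC s hs hsF (Matrix.of A) ⟨hA.1, fun c => by
        rw [tangentSpace_eq]
        exact hA.2 c⟩
      have h2 := conv S F δ r _ (hx0 s hs) hsF (Matrix.of A)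
      have h3 := mul_le_mul_of_nonneg_left h1 hd.le
      rw [h2] at h3
      have h4 : (Module.finrank ℚ K : ℝ) * ((α + ε) * height (curvePoint
          (fun l m => algebraMap L K (c l m)) s) + C) =
          (α + ε) * Height.logHeight (curvePoint (fun l m => algebraMap L K (c l m)) s) +
          Module.finrank ℚ K * C := by
        unfold height
        field_simp
      rw [h4] at h3
      have h5 : Pool.Agent.H432.MI.W ((Finset.univ : Finset (InfinitePlace K)).disjSum S) F δ r
          (curvePoint (fun l m => algebraMap L K (c l m)) s) +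
          Height.logHeight (Pool.Agent.N750.mv A) ≤ (n' + 2 + α + ε) *
          Height.logHeight (curvePoint (fun l m => algebraMap L K (c l m)) s) +
          Module.finrank ℚ K * C := by
        have h6 : Pool.Agent.N750.mv A = Pool.Agent.N750.mv (fun l c => Matrix.of A l c) := rfl
        rw [h6]
        linarith
      exact h5
    · intro h S ε hε
      obtain ⟨C, hC⟩ := h S ε hε
      refine ⟨C / Module.finrank ℚ K, fun s hs hsF A hA => ?_⟩
      have h1 := hC s hs hsF (fun l c => A l c) ⟨hA.1, fun c => by
        rw [← tangentSpace_eq]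
        exact hA.2 c⟩
      have h2 := conv S F δ r _ (hx0 s hs) hsF A
      have h4 : (Module.finrank ℚ K : ℝ) * ((α + ε) * height (curvePoint
          (fun l m => algebraMap L K (c l m)) s) + C / Module.finrank ℚ K) =
          (α + ε) * Height.logHeight (curvePoint (fun l m => algebraMap L K (c l m)) s) + C := by
        unfold height
        field_simp
      refine le_of_mul_le_mul_left ?_ hd
      rw [h2, h4]
      have h5 : Pool.Agent.H432.MI.W ((Finset.univ : Finset (InfinitePlace K)).disjSum S) F δ r
          (curvePoint (fun l m => algebraMap L K (c l m)) s) +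
          Height.logHeight (Pool.Agent.N750.mv (fun l c => A l c)) ≤ (n' + 2 + α + ε) *
          Height.logHeight (curvePoint (fun l m => algebraMap L K (c l m)) s) + C := h1
      linarith
  -- the bound for the contacts
  have hbd : ∀ (K : Type) [Field K] [NumberField K] [Algebra k K] [Algebra L K]
      [IsScalarTower k L K] (m : ℕ) (α : ℝ),
      ContactBound F r (fun l m => algebraMap L K (c l m))
        ((m : ℝ) - ((n' + 1 : ℕ) + 1) * d) α ↔
      ∀ (z y : Fin 2 → K), z 0 * y 1 ≠ z 1 * y 0 → ∀ a a' : Fin q → ℕ,
      Pool.Agent.H432.MI.Con F (fun l m => algebraMap L K (c l m)) z a →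
      Pool.Agent.H432.MI.Con F (fun l m => algebraMap L K (c l m)) y a' →
      (m : ℝ) + ∑ i, r i * a i + ∑ i, r i * a' i ≤ (n' + 2 + α) * d := by
    intro K _ _ _ _ _ m α
    constructor
    · intro h z y hzy a a' hz hy
      have h1 := h z y hzy a a' (hcon.2 hz) (hcon.2 hy)
      push_cast at h1
      linarith
    · intro h z y hzy a a' hz hy
      have h1 := h z y hzy a a' (hcon.1 hz) (hcon.1 hy)
      push_cast
      linarith
  refine ⟨?_, ?_⟩
  · obtain ⟨m, b, hb⟩ := Pool.Agent.H432.EX.exists_gauss (n' := n') hG hsm (c := c)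
      (fun Ω _ _ z hz => (hrc hc).nz Ω z hz) (fun z i => (hrc hc).onX L z i)
    exact ⟨m, b, hgf.2 hb⟩
  · intro m b hb α
    refine ⟨?_, ?_⟩
    · intro K _ _ _ _ _ h
      rw [hbd K m α]
      intro z y hzy a a' hz hy
      have hb' : Pool.Agent.H432.EX.GF G c b := hgf.1 hb
      refine Pool.Agent.H432.MI.low_all hsm hF r (fun Ω _ _ z hz => ?_)
        (fun z i => (hrc hc).onX K z i) (hb'.map (E := K)) α z y hzy a a' hz hy
        ((hineq K α).1 h)
      let _ : Algebra L Ω := ((algebraMap K Ω).comp (algebraMap L K)).toAlgebra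
      exact (hrc hc).nz Ω z hz
    · intro h K _ _ _ _ _
      rw [hineq K α]
      exact (Pool.Agent.H432.MI.crit (n' := n') hG hsm hF r hd (hrc hc) hcF (hgf.1 hb) α).2
        (fun K _ _ _ _ _ => (hbd K m α).1 (h K)) K

end Pool.Agent.Results.MP_8865d3_nt.RationalCurvesAllIdeals
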